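import Pool.Agent.Helper4.HZ.Goals2

/-! # Project HZ, packet KOC: the Dirichlet series of the orders of the classical groups. -/

open scoped ENNReal
open Finset Filter Topology

noncomputable section

namespace Pool.Agent.Helper34.HZ

open Pool.Agent.Helper4.HZ

/-- the five families -/
def fam (x : Fin 5 × ℕ × ℕ) : ℕ :=
  (![oA x.2.1 x.2.2, oTA x.2.1 x.2.2, oB x.2.1 x.2.2, oD x.2.1 x.2.2, oTD x.2.1 x.2.2] :
    Fin 5 → ℕ) x.1

theorem classical_sub (h : S_KOI) (m : classicalOrders) :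
    ∃ x : Fin 5 × ℕ × ℕ, fam x = m ∧ 2 ≤ x.2.2 ∧ 2 ^ x.2.1 * x.2.2 ^ 6 ≤ 12 * fam x := by
  obtain ⟨m, p, k, n, q, hp, hk, hq, hm⟩ := m
  have hq2 : 2 ≤ q := by
    rw [hq]
    calc 2 ≤ p := hp.two_le
      _ = p ^ 1 := (pow_one p).symm
      _ ≤ p ^ k := Nat.pow_le_pow_right hp.pos hk
  obtain ⟨h1, h2⟩ := h n q hq2
  rcases hm with ⟨hn, hm⟩ | ⟨hn, hm⟩
  · obtain ⟨a1, a2, a3⟩ := h1 hn
    rcases hm with rfl | rfl | rfl
    · exact ⟨(0, n, q), rfl, hq2, a1⟩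
    · exact ⟨(1, n, q), rfl, hq2, a2⟩
    · exact ⟨(2, n, q), rfl, hq2, a3⟩
  · obtain ⟨a1, a2⟩ := h2 hn
    rcases hm with rfl | rfl
    · exact ⟨(3, n, q), rfl, hq2, a1⟩
    · exact ⟨(4, n, q), rfl, hq2, a2⟩

theorem tsum_lt_top {f : ℕ → ℝ} (h0 : ∀ n, 0 ≤ f n) (h : Summable f) :
    ∑' n, ENNReal.ofReal (f n) < ⊤ := by
  rw [← ENNReal.ofReal_tsum_of_nonneg h0 h]
  exact ENNReal.ofReal_lt_top

theorem KOC_holds (h : S_KOI) : S_KOC := by
  intro s hs
  have hs0 : 0 < s := by linarith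
  set a : ℕ → ℝ := fun n => (12 : ℝ) ^ s * ((2 : ℝ) ^ (-s)) ^ n with ha
  set b : ℕ → ℝ := fun q => (q : ℝ) ^ (-(6 * s)) with hb
  have ha0 : ∀ n, 0 ≤ a n := fun n => by rw [ha]; positivity
  have hb0 : ∀ n, 0 ≤ b n := fun n => Real.rpow_nonneg (Nat.cast_nonneg _) _
  let x : classicalOrders → Fin 5 × ℕ × ℕ := fun m => (classical_sub h m).choose
  have hx : ∀ m, fam (x m) = m ∧ 2 ≤ (x m).2.2 ∧
      2 ^ (x m).2.1 * (x m).2.2 ^ 6 ≤ 12 * fam (x m) := fun m => (classical_sub h m).choose_spec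
  have hinj : Function.Injective x := by
    intro m m' hmm
    apply Subtype.ext
    rw [← (hx m).1, ← (hx m').1, hmm]
  have e1 : Z s classicalOrders ≤
      ∑' m : classicalOrders, ENNReal.ofReal (a (x m).2.1) * ENNReal.ofReal (b (x m).2.2) := by
    apply ENNReal.tsum_le_tsum
    intro m
    obtain ⟨h1, h2, h3⟩ := hx m
    rw [← ENNReal.ofReal_mul (ha0 _)]
    apply ENNReal.ofReal_le_ofReal
    have hq0 : (0 : ℝ) < ((x m).2.2 : ℝ) := by exact_mod_cast (by omega : 0 < (x m).2.2)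
    have h4 : ((2 : ℝ) ^ (x m).2.1 * ((x m).2.2 : ℝ) ^ 6) / 12 ≤ ((m : ℕ) : ℝ) := by
      rw [div_le_iff₀ (by norm_num), ← h1]
      have : (((2 ^ (x m).2.1 * (x m).2.2 ^ 6 : ℕ)) : ℝ) ≤ ((12 * fam (x m) : ℕ) : ℝ) := by
        exact_mod_cast h3
      push_cast at this
      linarith
    have h5 : (0 : ℝ) < ((2 : ℝ) ^ (x m).2.1 * ((x m).2.2 : ℝ) ^ 6) / 12 := by positivity
    refine (Real.rpow_le_rpow_of_nonpos h5 h4 (by linarith)).trans ?_
    apply le_of_eq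
    rw [ha, hb]
    dsimp only
    rw [Real.div_rpow (by positivity) (by norm_num), Real.mul_rpow (by positivity) (by positivity),
      Real.rpow_neg (by norm_num : (0 : ℝ) ≤ 12), div_inv_eq_mul]
    have h6 : ((2 : ℝ) ^ (x m).2.1) ^ (-s) = ((2 : ℝ) ^ (-s)) ^ (x m).2.1 := by
      rw [← Real.rpow_natCast, ← Real.rpow_natCast, ← Real.rpow_mul (by norm_num),
        ← Real.rpow_mul (by norm_num), mul_comm]
    have h7 : (((x m).2.2 : ℝ) ^ 6) ^ (-s) = ((x m).2.2 : ℝ) ^ (-(6 * s)) := by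
      rw [← Real.rpow_natCast, ← Real.rpow_mul hq0.le]
      congr 1
      push_cast
      ring
    rw [h6, h7]
    ring
  refine e1.trans_lt ?_
  have e2 : ∑' m : classicalOrders, ENNReal.ofReal (a (x m).2.1) * ENNReal.ofReal (b (x m).2.2) ≤
      ∑' y : Fin 5 × ℕ × ℕ, ENNReal.ofReal (a y.2.1) * ENNReal.ofReal (b y.2.2) :=
    ENNReal.tsum_comp_le_tsum_of_injective hinj
      (fun y : Fin 5 × ℕ × ℕ => ENNReal.ofReal (a y.2.1) * ENNReal.ofReal (b y.2.2))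
  refine e2.trans_lt ?_
  rw [ENNReal.tsum_prod', tsum_fintype]
  dsimp only
  rw [Finset.sum_const, nsmul_eq_mul]
  apply ENNReal.mul_lt_top (ENNReal.natCast_lt_top _)
  rw [ENNReal.tsum_prod']
  dsimp only
  simp only [ENNReal.tsum_mul_left, ENNReal.tsum_mul_right]
  apply ENNReal.mul_lt_top
  · apply tsum_lt_top ha0
    apply Summable.mul_left
    apply summable_geometric_of_lt_one (by positivity)
    apply Real.rpow_lt_one_of_one_lt_of_neg (by norm_num) (by linarith)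
  · apply tsum_lt_top hb0
    exact Real.summable_nat_rpow.2 (by linarith)

end Pool.Agent.Helper34.HZ
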