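import Pool.Agent.Helper4.HZ.Goals

/-! # Project HZ, packet ZRD: multiplying by numbers supported on the primes dividing `7a`. -/

open scoped ENNReal
open Finset Filter Topology

noncomputable section

namespace Pool.Agent.Helper34.HZ

open Pool.Agent.Helper4.HZ

/-- `n ↦ n^(-s)` as a monoid homomorphism -/
def pw (s : ℝ) : ℕ →* ℝ where
  toFun n := (n : ℝ) ^ (-s)
  map_one' := by rw [Nat.cast_one, Real.one_rpow]
  map_mul' a b := by
    rw [Nat.cast_mul, Real.mul_rpow (Nat.cast_nonneg a) (Nat.cast_nonneg b)]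

theorem pw_apply (s : ℝ) (n : ℕ) : pw s n = (n : ℝ) ^ (-s) := rfl

theorem pw_prime_le {s : ℝ} (hs : 0 < s) {p : ℕ} (hp : p.Prime) :
    (p : ℝ) ^ (-s) ≤ (2 : ℝ) ^ (-s) := by
  apply Real.rpow_le_rpow_of_nonpos (by norm_num) (by exact_mod_cast hp.two_le) (by linarith)

theorem two_lt {s : ℝ} (hs : 0 < s) : (2 : ℝ) ^ (-s) < 1 := by
  apply Real.rpow_lt_one_of_one_lt_of_neg (by norm_num) (by linarith)

/-- the inner sum -/
theorem inner_le (s ε : ℝ) (hs : 0 < s) (hε : 0 < ε) : ∃ C : ℝ, 0 ≤ C ∧ ∀ a : ℕ, a ≠ 0 →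
    ∑' b : Nat.factoredNumbers a.primeFactors, ENNReal.ofReal (((b : ℕ) : ℝ) ^ (-s)) ≤
      ENNReal.ofReal (C * (a : ℝ) ^ ε) := by
  set M : ℝ := (1 - (2 : ℝ) ^ (-s))⁻¹ with hM
  have h2 := two_lt hs
  have h20 : (0 : ℝ) < (2 : ℝ) ^ (-s) := Real.rpow_pos_of_pos (by norm_num) _
  have hM1 : 1 ≤ M := by
    rw [hM]
    exact (one_le_inv₀ (by linarith)).2 (by linarith)
  have ht : Tendsto (fun n : ℕ => (n : ℝ) ^ ε) atTop atTop :=
    (tendsto_rpow_atTop hε).comp tendsto_natCast_atTop_atTop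
  obtain ⟨P, hP⟩ := (ht.eventually_ge_atTop M).exists_forall_of_atTop
  refine ⟨M ^ P, by positivity, ?_⟩
  intro a ha
  obtain ⟨h1, h3⟩ := EulerProduct.summable_and_hasSum_factoredNumbers_prod_filter_prime_geometric
    (f := pw s) (by
      intro p hp
      rw [pw_apply, Real.norm_of_nonneg (Real.rpow_nonneg (Nat.cast_nonneg p) _)]
      exact (pw_prime_le hs hp).trans_lt h2) a.primeFactors
  have h4 : ∑' b : Nat.factoredNumbers a.primeFactors, ENNReal.ofReal (((b : ℕ) : ℝ) ^ (-s)) =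
      ENNReal.ofReal (∏ p ∈ a.primeFactors with p.Prime, (1 - pw s p)⁻¹) := by
    rw [← h3.tsum_eq, ENNReal.ofReal_tsum_of_nonneg]
    · rfl
    · intro b
      exact Real.rpow_nonneg (Nat.cast_nonneg _) _
    · exact h3.summable
  rw [h4]
  apply ENNReal.ofReal_le_ofReal
  have h5 : a.primeFactors.filter Nat.Prime = a.primeFactors :=
    Finset.filter_true_of_mem fun p hp => Nat.prime_of_mem_primeFactors hp
  rw [h5]
  have h6 : ∀ p ∈ a.primeFactors, (1 - pw s p)⁻¹ ≤ (if p < P then M else 1) * (p : ℝ) ^ ε := by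
    intro p hp
    have hpp := Nat.prime_of_mem_primeFactors hp
    have h7 : (1 - pw s p)⁻¹ ≤ M := by
      rw [hM, pw_apply]
      apply inv_anti₀ (by linarith)
      linarith [pw_prime_le hs hpp]
    have h8 : 1 ≤ (p : ℝ) ^ ε :=
      Real.one_le_rpow (by exact_mod_cast hpp.one_lt.le) hε.le
    split_ifs with h9
    · calc (1 - pw s p)⁻¹ ≤ M := h7
        _ = M * 1 := (mul_one M).symm
        _ ≤ M * (p : ℝ) ^ ε := mul_le_mul_of_nonneg_left h8 (by linarith)
    · rw [one_mul]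
      exact h7.trans (hP p (by omega))
  have h7 : ∀ p ∈ a.primeFactors, 0 ≤ (1 - pw s p)⁻¹ := by
    intro p hp
    have hpp := Nat.prime_of_mem_primeFactors hp
    rw [pw_apply]
    apply inv_nonneg.2
    linarith [pw_prime_le hs hpp]
  refine (Finset.prod_le_prod h7 h6).trans ?_
  rw [Finset.prod_mul_distrib]
  apply mul_le_mul
  · rw [Finset.prod_ite, Finset.prod_const, Finset.prod_const_one, mul_one]
    apply pow_le_pow_right₀ hM1
    calc (a.primeFactors.filter (fun p => p < P)).card ≤ (Finset.range P).card :=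
          Finset.card_le_card fun p hp => by
            rw [Finset.mem_range]; exact (Finset.mem_filter.1 hp).2
      _ = P := Finset.card_range P
  · rw [Real.finsetProd_rpow _ _ (fun p _ => Nat.cast_nonneg p)]
    apply Real.rpow_le_rpow _ _ hε.le
    · exact Finset.prod_nonneg fun p _ => Nat.cast_nonneg p
    · rw [← Nat.cast_prod]
      exact_mod_cast Nat.le_of_dvd (Nat.pos_of_ne_zero ha) (Nat.prod_primeFactors_dvd a)
  · exact Finset.prod_nonneg fun p _ => Real.rpow_nonneg (Nat.cast_nonneg p) _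
  · positivity

theorem ZRD_holds : S_ZRD := by
  intro s' s A hs' hss hA hZ
  have hs : 0 < s := hs'.trans hss
  obtain ⟨C, hC0, hC⟩ := inner_le s (s - s') hs (by linarith)
  set S : Set ℕ := {n | ∃ a ∈ A, ∃ b : ℕ, n = a * b ∧ ∀ p : ℕ, p.Prime → p ∣ b → p ∣ 7 * a} with hS
  have hne : ∀ a : A, 7 * (a : ℕ) ≠ 0 := by
    intro a
    have := hA a.1 a.2
    omega
  let f : (Σ a : A, Nat.factoredNumbers (7 * (a : ℕ)).primeFactors) → S := fun x =>
    ⟨(x.1 : ℕ) * (x.2 : ℕ), x.1.1, x.1.2, x.2.1, rfl, by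
      intro p hp hpb
      have h0 := Nat.ne_zero_of_mem_factoredNumbers x.2.2
      have h1 := Nat.primeFactors_subset_of_mem_factoredNumbers x.2.2
      exact Nat.dvd_of_mem_primeFactors (h1 (Nat.mem_primeFactors.2 ⟨hp, hpb, h0⟩))⟩
  have hf : Function.Surjective f := by
    rintro ⟨n, a, ha, b, hn, hb⟩
    have hb0 : b ≠ 0 := by
      rintro rfl
      have h1 := hA a ha
      obtain ⟨p, hp1, hp2⟩ := Nat.exists_infinite_primes (7 * a + 1)
      have h2 := Nat.le_of_dvd (by omega) (hb p hp2 (dvd_zero p))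
      omega
    have h1 := hA a ha
    refine ⟨⟨⟨a, ha⟩, ⟨b, ?_⟩⟩, ?_⟩
    · apply Nat.mem_factoredNumbers_of_primeFactors_subset hb0
      intro p hp
      have hp1 := Nat.prime_of_mem_primeFactors hp
      have hp2 := Nat.dvd_of_mem_primeFactors hp
      exact Nat.mem_primeFactors.2 ⟨hp1, hb p hp1 hp2, by change 7 * a ≠ 0; omega⟩
    · apply Subtype.ext
      exact hn.symm
  have e1 : Z s S ≤ ∑' x : (Σ a : A, Nat.factoredNumbers (7 * (a : ℕ)).primeFactors),
      ENNReal.ofReal ((((x.1 : ℕ) * (x.2 : ℕ) : ℕ) : ℝ) ^ (-s)) :=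
    ENNReal.tsum_le_tsum_comp_of_surjective hf fun n : S => ENNReal.ofReal (((n : ℕ) : ℝ) ^ (-s))
  refine e1.trans_lt ?_
  rw [ENNReal.tsum_sigma']
  have e2 : ∀ a : A, ∑' b : Nat.factoredNumbers (7 * (a : ℕ)).primeFactors,
      ENNReal.ofReal ((((a : ℕ) * (b : ℕ) : ℕ) : ℝ) ^ (-s)) ≤
        ENNReal.ofReal (C * 7 ^ (s - s')) * ENNReal.ofReal (((a : ℕ) : ℝ) ^ (-s')) := by
    intro a
    have ha : (0 : ℝ) < ((a : ℕ) : ℝ) := by exact_mod_cast hA a.1 a.2
    have e3 : ∀ b : Nat.factoredNumbers (7 * (a : ℕ)).primeFactors,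
        ENNReal.ofReal ((((a : ℕ) * (b : ℕ) : ℕ) : ℝ) ^ (-s)) =
          ENNReal.ofReal (((a : ℕ) : ℝ) ^ (-s)) * ENNReal.ofReal (((b : ℕ) : ℝ) ^ (-s)) := by
      intro b
      rw [Nat.cast_mul, Real.mul_rpow (Nat.cast_nonneg _) (Nat.cast_nonneg _),
        ENNReal.ofReal_mul (Real.rpow_nonneg (Nat.cast_nonneg _) _)]
    rw [tsum_congr e3, ENNReal.tsum_mul_left]
    refine (mul_le_mul_right (hC _ (hne a)) _).trans ?_
    rw [← ENNReal.ofReal_mul (Real.rpow_nonneg (Nat.cast_nonneg _) _),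
      ← ENNReal.ofReal_mul (by positivity)]
    apply ENNReal.ofReal_le_ofReal
    apply le_of_eq
    rw [Nat.cast_mul, Real.mul_rpow (Nat.cast_nonneg _) (Nat.cast_nonneg _)]
    have e4 : ((a : ℕ) : ℝ) ^ (-s') = ((a : ℕ) : ℝ) ^ (-s) * ((a : ℕ) : ℝ) ^ (s - s') := by
      rw [← Real.rpow_add ha]; congr 1; ring
    rw [e4]
    push_cast
    ring
  refine (ENNReal.tsum_le_tsum e2).trans_lt ?_
  rw [ENNReal.tsum_mul_left]
  exact ENNReal.mul_lt_top ENNReal.ofReal_lt_top hZ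

end Pool.Agent.Helper34.HZ
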